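import Pool.Agent.R645.TM.Main

/-! The product of a locally tame group with the infinite cyclic group is locally tame. -/

set_option autoImplicit false

namespace Pool.Agent.Results.MP_6d201a_al.TimesZ

open Pool.Agent.R645.TM

universe u

/-- A group is locally tame if it has a finite presentation with respect to which each of its
finitely generated subgroups is tame.  (The choice of the finite presentation does not matter; the
conclusion of `result` is about all finite presentations.) -/
def LocallyTame (G : Type u) [Group G] : Prop :=
  ∃ P : Pres G, ∀ H : Subgroup G, H.FG → Tame P H

/-- If the (finitely presented) group `H` is locally tame, then so is `H × ℤ`, and the finitely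
generated subgroups of `H × ℤ` are tame with respect to every finite presentation of `H × ℤ`. -/
theorem result (H : Type u) [Group H] (hH : LocallyTame H) :
    LocallyTame (H × Multiplicative ℤ) ∧
    ∀ (P : Pres (H × Multiplicative ℤ)) (S : Subgroup (H × Multiplicative ℤ)),
      S.FG → Tame P S := by
  obtain ⟨PH, h⟩ := hH
  have h2 := prod_main PH h
  exact ⟨⟨presProd PH, fun S hS => h2 _ S hS⟩, h2⟩

end Pool.Agent.Results.MP_6d201a_al.TimesZ
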